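import Mathlib
import Pool.Agent.Y503.RB.All
import Pool.Agent.N503.WI3

/-!
Hyperbolic mean curvature of slice discs in the unit ball of four-space.
-/

set_option autoImplicit false

namespace Pool.Agent.Run7.h822.HM

open scoped ContDiff RealInnerProductSpace ENNReal NNReal Topology
open MeasureTheory Set Metric Filter
open Pool.Agent.Y503.RB Pool.Agent.N503.WI

/-- The mean curvature vector at `φ z` (half of the trace of the second fundamental form) with
respect to the hyperbolic metric `4 |dx|² / (1 - |x|²)²` of the unit ball, written in the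
hyperbolic orthonormal frame `(1 - |x|²) / 2 · e_i`. Its Euclidean norm is the hyperbolic length of
the hyperbolic mean curvature vector. -/
noncomputable def hypMean (φ : ℂ → E4) (z : ℂ) : E4 :=
  ((1 - ‖φ z‖ ^ 2) / 2) • meanCurv φ z -
    (LinearMap.range (fderiv ℝ φ z).toLinearMap)ᗮ.starProjection (φ z)

/-- Density of the hyperbolic area. -/
noncomputable def hypArea (φ : ℂ → E4) (z : ℂ) : ℝ :=
  (2 / (1 - ‖φ z‖ ^ 2)) ^ 2 * √(fffDet φ z)

/-- Density of the excess of the mean curvature over that of the horospheres in the direction of the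
unit normal vector `n`; the weight is the third power of the inverse of the Poisson kernel at the
point at infinity of the horosphere with inner normal `n`. -/
noncomputable def densH (φ : ℂ → E4) (n : E4) (z : ℂ) : ℝ :=
  (ht (foot (φ z) n) (φ z))⁻¹ ^ 3 * (max (⟪hypMean φ z, n⟫ - 1) 0) ^ 2 * hypArea φ z

/-- Integral of the density over the circle of unit normal vectors at `φ z`. (All `L` in the
supremum give the same value.) -/
noncomputable def excessAt (φ : ℂ → E4) (z : ℂ) : ℝ≥0∞ :=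
  ⨆ (L : ℂ →ₗᵢ[ℝ] E4) (_ : ∀ w v : ℂ, ⟪L w, d1 φ v z⟫ = 0),
    ∫⁻ θ in Ico 0 (2 * Real.pi), ENNReal.ofReal (densH φ (L ⟨Real.cos θ, Real.sin θ⟩) z)

/-! ### Horospheres -/

theorem one_add_pos {p n : E4} (hp : ‖p‖ < 1) (hn : ‖n‖ = 1) : 0 < 1 + ⟪p, n⟫ := by
  have h := abs_real_inner_le_norm p n
  rw [hn, mul_one] at h
  have := (abs_le.1 h).1
  linarith

theorem rad_pos {p n : E4} (hp : ‖p‖ < 1) (hn : ‖n‖ = 1) : 0 < rad p n := by
  unfold rad
  have h1 := one_add_pos hp hn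
  have h2 : ‖p‖ ^ 2 < 1 := by nlinarith [norm_nonneg p]
  have h3 : 0 < 1 - ‖p‖ ^ 2 := by linarith
  positivity

theorem rad_le {p n : E4} (hp : ‖p‖ < 1) (hn : ‖n‖ = 1) : rad p n ≤ (1 + ‖p‖) / 2 := by
  unfold rad
  have h1 := one_add_pos hp hn
  have h := abs_real_inner_le_norm p n
  rw [hn, mul_one] at h
  have h0 := (abs_le.1 h).1
  rw [div_le_div_iff₀ (by positivity) (by norm_num)]
  nlinarith [norm_nonneg p]

theorem rad_lt {p n : E4} (hp : ‖p‖ < 1) (hn : ‖n‖ = 1) : rad p n < 1 := by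
  have := rad_le hp hn
  linarith

theorem norm_add_sq' {p n : E4} (hn : ‖n‖ = 1) : ‖p + n‖ ^ 2 = ‖p‖ ^ 2 + 2 * ⟪p, n⟫ + 1 := by
  rw [norm_add_sq_real, hn]; ring

/-- The Poisson kernel at the foot of the horosphere. -/
theorem ht_foot {p n : E4} (hp : ‖p‖ < 1) (hn : ‖n‖ = 1) :
    ht (foot p n) p = (1 - rad p n) / rad p n := by
  have h1 := one_add_pos hp hn
  have hr := rad_pos hp hn
  have hr1 : 0 < 1 - rad p n := by linarith [rad_lt hp hn]
  have h2 : ‖p‖ ^ 2 < 1 := by nlinarith [norm_nonneg p]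
  have h3 : 0 < 1 - ‖p‖ ^ 2 := by linarith
  have e1 : p - foot p n = (-(rad p n / (1 - rad p n))) • (p + n) := by
    unfold foot
    have : p = ((1 - rad p n)⁻¹ * (1 - rad p n)) • p := by
      rw [inv_mul_cancel₀ hr1.ne', one_smul]
    nth_rw 1 [this]
    rw [smul_add, smul_add, smul_smul, sub_add_eq_sub_sub, ← sub_smul]
    rw [neg_smul, neg_smul, div_eq_inv_mul]
    rw [show (1 - rad p n)⁻¹ * (1 - rad p n) - (1 - rad p n)⁻¹ =
      -((1 - rad p n)⁻¹ * rad p n) by ring]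
    rw [neg_smul]
    abel
  have e2 : ‖p - foot p n‖ ^ 2 = (rad p n / (1 - rad p n)) ^ 2 * (‖p‖ ^ 2 + 2 * ⟪p, n⟫ + 1) := by
    rw [e1, norm_smul, mul_pow, norm_add_sq' hn, Real.norm_eq_abs, sq_abs, neg_sq]
  have e3 : ‖p‖ ^ 2 + 2 * ⟪p, n⟫ + 1 = (1 - ‖p‖ ^ 2) * (1 - rad p n) / rad p n := by
    have : rad p n * (2 * (1 + ⟪p, n⟫)) = 1 - ‖p‖ ^ 2 := by
      unfold rad
      field_simp
    rw [eq_div_iff hr.ne']
    nlinarith [this]
  unfold ht
  rw [e2, e3]
  field_simp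

theorem weight_le {p n : E4} (hp : ‖p‖ < 1) (hn : ‖n‖ = 1) :
    (ht (foot p n) p)⁻¹ ≤ (1 + ‖p‖) / (1 - ‖p‖) := by
  rw [ht_foot hp hn, inv_div]
  have hr := rad_le hp hn
  have hr1 : 0 < 1 - rad p n := by linarith [rad_lt hp hn]
  rw [div_le_div_iff₀ hr1 (by linarith)]
  nlinarith [norm_nonneg p]

theorem weight_nonneg {p n : E4} (hp : ‖p‖ < 1) (hn : ‖n‖ = 1) :
    0 ≤ (ht (foot p n) p)⁻¹ := by
  rw [ht_foot hp hn, inv_div]
  have hr := rad_pos hp hn
  have hr1 : 0 < 1 - rad p n := by linarith [rad_lt hp hn]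
  positivity

/-! ### The mean curvature in a normal direction -/

theorem inner_hypMean {φ : ℂ → E4} {z : ℂ} {n : E4} (hn : ∀ v : ℂ, ⟪n, d1 φ v z⟫ = 0) :
    ⟪hypMean φ z, n⟫ = (1 - ‖φ z‖ ^ 2) / 2 * ⟪meanCurv φ z, n⟫ - ⟪φ z, n⟫ := by
  have hmem : n ∈ (LinearMap.range (fderiv ℝ φ z).toLinearMap)ᗮ := by
    rw [Submodule.mem_orthogonal]
    rintro x ⟨v, rfl⟩
    rw [real_inner_comm]
    exact hn v
  unfold hypMean
  rw [inner_sub_left, real_inner_smul_left, Submodule.inner_starProjection_left_eq_right,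
    Submodule.starProjection_eq_self_iff.2 hmem]

theorem inner_sub_one {φ : ℂ → E4} {z : ℂ} {n : E4} (hp : ‖φ z‖ < 1) (h1 : ‖n‖ = 1)
    (hn : ∀ v : ℂ, ⟪n, d1 φ v z⟫ = 0) :
    ⟪hypMean φ z, n⟫ - 1 = (1 + ⟪φ z, n⟫) * (rad (φ z) n * ⟪meanCurv φ z, n⟫ - 1) := by
  rw [inner_hypMean hn]
  have h2 := one_add_pos hp h1
  have : rad (φ z) n * (2 * (1 + ⟪φ z, n⟫)) = 1 - ‖φ z‖ ^ 2 := by
    unfold rad
    field_simp
  have e : (1 - ‖φ z‖ ^ 2) / 2 = rad (φ z) n * (1 + ⟪φ z, n⟫) := by linarith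
  rw [e]
  ring

theorem fff_pos {φ : ℂ → E4} {z : ℂ} (hi : Function.Injective (fderiv ℝ φ z)) :
    0 < fff φ 1 1 z := by
  unfold fff
  rw [real_inner_self_eq_norm_sq]
  have : d1 φ 1 z ≠ 0 := by
    intro h
    have h0 : fderiv ℝ φ z 1 = fderiv ℝ φ z 0 := by rw [map_zero]; exact h
    exact one_ne_zero (hi h0)
  positivity

/-- The trace of the form `rad * II_n - I`. -/
theorem trace_exc {φ : ℂ → E4} {z : ℂ} (hi : Function.Injective (fderiv ℝ φ z)) {n : E4}
    (hn : ∀ v : ℂ, ⟪n, d1 φ v z⟫ = 0) :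
    fff φ 1 1 z * exc φ n Complex.I Complex.I z - 2 * fff φ 1 Complex.I z * exc φ n 1 Complex.I z
      + fff φ Complex.I Complex.I z * exc φ n 1 1 z =
      2 * fffDet φ z * (rad (φ z) n * ⟪meanCurv φ z, n⟫ - 1) := by
  have hd := Pool.Agent.Y503.RB.fffDet_pos hi
  rw [inner_meanCurv hn]
  unfold exc
  have e : fffDet φ z = fff φ 1 1 z * fff φ Complex.I Complex.I z - fff φ 1 Complex.I z ^ 2 := rfl
  field_simp
  rw [e]
  ring

theorem dens_le {φ : ℂ → E4} {z : ℂ} (hi : Function.Injective (fderiv ℝ φ z)) (hp : ‖φ z‖ < 1)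
    {n : E4} (h1 : ‖n‖ = 1) (hn : ∀ v : ℂ, ⟪n, d1 φ v z⟫ = 0) : dens φ n z ≤ densH φ n z := by
  have hd := Pool.Agent.Y503.RB.fffDet_pos hi
  have hs : 0 < √(fffDet φ z) := Real.sqrt_pos.2 hd
  have hss : √(fffDet φ z) ^ 2 = fffDet φ z := Real.sq_sqrt hd.le
  have hE := fff_pos hi
  have hr := rad_pos hp h1
  have hr1 : 0 < 1 - rad (φ z) n := by linarith [rad_lt hp h1]
  have hip := one_add_pos hp h1
  have h2 : ‖φ z‖ ^ 2 < 1 := by nlinarith [norm_nonneg (φ z)]
  have h3 : 0 < 1 - ‖φ z‖ ^ 2 := by linarith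
  have hrad : rad (φ z) n * (2 * (1 + ⟪φ z, n⟫)) = 1 - ‖φ z‖ ^ 2 := by
    unfold rad
    field_simp
  have hA : 0 ≤ hypArea φ z := by unfold hypArea; positivity
  unfold dens
  by_cases h : Inner φ n z
  · rw [if_pos h]
    obtain ⟨ha, hb⟩ := h
    have hb' : 0 < exc φ n 1 1 z * exc φ n Complex.I Complex.I z - exc φ n 1 Complex.I z ^ 2 := hb
    have e : fffDet φ z = fff φ 1 1 z * fff φ Complex.I Complex.I z - fff φ 1 Complex.I z ^ 2 := rfl
    have ht := trace_exc hi hn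
    have hpos := trace_pos (G := fff φ Complex.I Complex.I z) (F := fff φ 1 Complex.I z) hE
      (by rw [← e]; exact hd) ha hb'
    rw [ht] at hpos
    have hk : 0 < rad (φ z) n * ⟪meanCurv φ z, n⟫ - 1 := by
      by_contra hcon
      push Not at hcon
      have : 2 * fffDet φ z * (rad (φ z) n * ⟪meanCurv φ z, n⟫ - 1) ≤ 0 :=
        mul_nonpos_of_nonneg_of_nonpos (by positivity) hcon
      linarith
    have key := trace_sq (L := exc φ n 1 1 z) (M := exc φ n 1 Complex.I z)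
      (N := exc φ n Complex.I Complex.I z) (F := fff φ 1 Complex.I z)
      (G := fff φ Complex.I Complex.I z) hE (by rw [← e]; exact hd.le)
    rw [ht, ← e] at key
    set k := rad (φ z) n * ⟪meanCurv φ z, n⟫ - 1 with hk'
    have key2 : excDet φ n z ≤ fffDet φ z * k ^ 2 := by
      have e2 : excDet φ n z =
        exc φ n 1 1 z * exc φ n Complex.I Complex.I z - exc φ n 1 Complex.I z ^ 2 := rfl
      rw [← e2] at key
      have : 4 * fffDet φ z * excDet φ n z ≤ 4 * fffDet φ z * (fffDet φ z * k ^ 2) := by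
        nlinarith [key]
      exact le_of_mul_le_mul_left this (by positivity)
    unfold dens0 densH
    rw [inner_sub_one hp h1 hn, ← hk', ht_foot hp h1, inv_div, abs_of_pos hb,
      max_eq_left (by positivity)]
    unfold hypArea
    rw [← hrad, div_le_iff₀ hs]
    have e4 : (rad (φ z) n / (1 - rad (φ z) n)) ^ 3 * ((1 + ⟪φ z, n⟫) * k) ^ 2 *
        ((2 / (rad (φ z) n * (2 * (1 + ⟪φ z, n⟫)))) ^ 2 * √(fffDet φ z)) * √(fffDet φ z) =
        rad (φ z) n / (1 - rad (φ z) n) ^ 3 * (√(fffDet φ z) ^ 2 * k ^ 2) := by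
      field_simp
    rw [e4, hss]
    exact mul_le_mul_of_nonneg_left key2 (by positivity)
  · rw [if_neg h]
    unfold densH
    have := weight_nonneg hp h1
    positivity

theorem curvAt_le {φ : ℂ → E4} {z : ℂ} (hi : Function.Injective (fderiv ℝ φ z))
    (hp : ‖φ z‖ < 1) : curvAt φ z ≤ excessAt φ z := by
  unfold curvAt excessAt
  refine iSup₂_mono fun L hL => lintegral_mono fun θ => ENNReal.ofReal_le_ofReal ?_
  refine dens_le hi hp ?_ (hL _)
  rw [L.norm_map]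
  have : (‖(⟨Real.cos θ, Real.sin θ⟩ : ℂ)‖) ^ 2 = 1 := by
    rw [← Complex.normSq_eq_norm_sq, Complex.normSq_mk]
    nlinarith [Real.sin_sq_add_cos_sq θ]
  nlinarith [norm_nonneg (⟨Real.cos θ, Real.sin θ⟩ : ℂ)]

end Pool.Agent.Run7.h822.HM
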