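import Mathlib
import Pool.Agent.Run7.h822.HM.Main

/-!
Hyperbolic mean curvature of slice discs: the length of the mean curvature vector.
-/

set_option autoImplicit false

namespace Pool.Agent.Run7.h822.HM

open scoped ContDiff RealInnerProductSpace ENNReal NNReal Topology
open MeasureTheory Set Metric Filter
open Pool.Agent.Y503.RB Pool.Agent.N503.WI

/-- Density of the weighted excess of the length of the hyperbolic mean curvature vector: the weight is
`exp (3 r)`, where `r` is the hyperbolic distance from the centre of the ball. -/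
noncomputable def energyH (φ : ℂ → E4) (z : ℂ) : ℝ :=
  ((1 + ‖φ z‖) / (1 - ‖φ z‖)) ^ 3 * (max (‖hypMean φ z‖ - 1) 0) ^ 2 * hypArea φ z

theorem circle_le (a b h : ℝ) (hh : 0 ≤ h) (hab : a ^ 2 + b ^ 2 ≤ h ^ 2) :
    ∫⁻ θ in Ico 0 (2 * Real.pi), ENNReal.ofReal
      ((max (a * Real.cos θ + b * Real.sin θ - 1) 0) ^ 2) ≤
      ENNReal.ofReal (Real.pi / 2 * (max (h - 1) 0) ^ 2) := by
  have hpi := Real.pi_pos
  set ρ := √(a ^ 2 + b ^ 2) with hρ
  have hρ0 : 0 ≤ ρ := Real.sqrt_nonneg _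
  have hρ2 : ρ ^ 2 = a ^ 2 + b ^ 2 := Real.sq_sqrt (by positivity)
  have hρh : ρ ≤ h := by
    rw [hρ]
    exact (Real.sqrt_le_left hh).2 hab
  have hcs : ∀ θ : ℝ, a * Real.cos θ + b * Real.sin θ ≤ ρ := by
    intro θ
    have h1 : (a * Real.cos θ + b * Real.sin θ) ^ 2 ≤ ρ ^ 2 := by
      rw [hρ2]
      nlinarith [sq_nonneg (a * Real.sin θ - b * Real.cos θ), Real.sin_sq_add_cos_sq θ]
    exact abs_le_of_sq_le_sq' h1 hρ0 |>.2
  rcases le_or_gt ρ 1 with h1 | h1
  · have : ∀ θ : ℝ, ENNReal.ofReal ((max (a * Real.cos θ + b * Real.sin θ - 1) 0) ^ 2) = 0 := by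
      intro θ
      rw [max_eq_right (by linarith [hcs θ])]
      simp
    simp only [this, lintegral_zero]
    exact bot_le
  · have hρp : 0 < ρ := by linarith
    have hle : ∀ θ : ℝ, (max (a * Real.cos θ + b * Real.sin θ - 1) 0) ^ 2 ≤
        (if 0 < a / ρ * Real.cos θ + b / ρ * Real.sin θ then
          ((ρ - 1) * (a / ρ) * Real.cos θ + (ρ - 1) * (b / ρ) * Real.sin θ) ^ 2 else 0) := by
      intro θ
      have e : a * Real.cos θ + b * Real.sin θ =
          ρ * (a / ρ * Real.cos θ + b / ρ * Real.sin θ) := by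
        field_simp
      have e2 : (ρ - 1) * (a / ρ) * Real.cos θ + (ρ - 1) * (b / ρ) * Real.sin θ =
          (ρ - 1) * (a / ρ * Real.cos θ + b / ρ * Real.sin θ) := by ring
      rw [e2]
      have hx := hcs θ
      rw [e] at hx ⊢
      set x := a / ρ * Real.cos θ + b / ρ * Real.sin θ
      have hx1 : x ≤ 1 := by
        by_contra hc
        push Not at hc
        nlinarith
      split_ifs with hx0
      · rcases le_or_gt (ρ * x - 1) 0 with h2 | h2
        · rw [max_eq_right h2, zero_pow two_ne_zero]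
          positivity
        · rw [max_eq_left h2.le]
          apply pow_le_pow_left₀ h2.le
          nlinarith
      · rw [max_eq_right (by nlinarith)]
        simp
    refine (lintegral_mono fun θ => ENNReal.ofReal_le_ofReal (hle θ)).trans ?_
    refine (half_circle _ _ _ _).trans (ENNReal.ofReal_le_ofReal ?_)
    apply mul_le_mul_of_nonneg_left _ (by positivity)
    rw [max_eq_left (by linarith)]
    have e3 : ((ρ - 1) * (a / ρ)) ^ 2 + ((ρ - 1) * (b / ρ)) ^ 2 =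
        (ρ - 1) ^ 2 * ((a ^ 2 + b ^ 2) / ρ ^ 2) := by
      field_simp
    rw [e3, ← hρ2, div_self (by positivity), mul_one]
    apply pow_le_pow_left₀ (by linarith)
    linarith

theorem norm_circle (θ : ℝ) : ‖(⟨Real.cos θ, Real.sin θ⟩ : ℂ)‖ = 1 := by
  have : (‖(⟨Real.cos θ, Real.sin θ⟩ : ℂ)‖) ^ 2 = 1 := by
    rw [← Complex.normSq_eq_norm_sq, Complex.normSq_mk]
    nlinarith [Real.sin_sq_add_cos_sq θ]
  nlinarith [norm_nonneg (⟨Real.cos θ, Real.sin θ⟩ : ℂ)]

theorem lin_circle (L : ℂ →ₗᵢ[ℝ] E4) (θ : ℝ) :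
    L ⟨Real.cos θ, Real.sin θ⟩ = Real.cos θ • L 1 + Real.sin θ • L Complex.I := by
  have : (⟨Real.cos θ, Real.sin θ⟩ : ℂ) = Real.cos θ • (1 : ℂ) + Real.sin θ • Complex.I := by
    apply Complex.ext <;> simp only [Complex.add_re, Complex.add_im, Complex.smul_re,
      Complex.smul_im, Complex.one_re, Complex.one_im, Complex.I_re, Complex.I_im, smul_eq_mul] <;>
      ring
  rw [this, map_add, map_smul, map_smul]

theorem bessel (L : ℂ →ₗᵢ[ℝ] E4) (H : E4) :
    ⟪H, L 1⟫ ^ 2 + ⟪H, L Complex.I⟫ ^ 2 ≤ ‖H‖ ^ 2 := by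
  have u1 : ‖L 1‖ = 1 := by rw [L.norm_map]; simp
  have u2 : ‖L Complex.I‖ = 1 := by rw [L.norm_map]; simp
  have o : ⟪L 1, L Complex.I⟫ = (0 : ℝ) := by
    rw [L.inner_map_map]
    simp
  have h0 : 0 ≤ ‖H - (⟪H, L 1⟫ • L 1 + ⟪H, L Complex.I⟫ • L Complex.I)‖ ^ 2 := by positivity
  have o' : ⟪L Complex.I, L 1⟫ = (0 : ℝ) := by rw [real_inner_comm]; exact o
  have i11 : ⟪L 1, L 1⟫ = (1 : ℝ) := by rw [real_inner_self_eq_norm_sq, u1]; norm_num
  have i22 : ⟪L Complex.I, L Complex.I⟫ = (1 : ℝ) := by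
    rw [real_inner_self_eq_norm_sq, u2]; norm_num
  rw [← real_inner_self_eq_norm_sq] at h0
  simp only [inner_sub_left, inner_sub_right, inner_add_left, inner_add_right,
    real_inner_smul_left, real_inner_smul_right, i11, i22, o, o',
    real_inner_comm H (L 1), real_inner_comm H (L Complex.I)] at h0
  rw [real_inner_self_eq_norm_sq] at h0
  nlinarith [h0, real_inner_comm (L 1) H, real_inner_comm (L Complex.I) H]

theorem excessAt_le {φ : ℂ → E4} {z : ℂ} (hp : ‖φ z‖ < 1) :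
    excessAt φ z ≤ ENNReal.ofReal (Real.pi / 2) * ENNReal.ofReal (energyH φ z) := by
  have h2 : ‖φ z‖ ^ 2 < 1 := by nlinarith [norm_nonneg (φ z)]
  have h3 : 0 < 1 - ‖φ z‖ ^ 2 := by linarith
  have h4 : 0 < 1 - ‖φ z‖ := by linarith
  have hA : 0 ≤ hypArea φ z := by unfold hypArea; positivity
  have hpi := Real.pi_pos
  unfold excessAt
  refine iSup₂_le fun L hL => ?_
  set W : ℝ := ((1 + ‖φ z‖) / (1 - ‖φ z‖)) ^ 3 with hW
  have hW0 : 0 ≤ W := by positivity
  have hle : ∀ θ : ℝ, ENNReal.ofReal (densH φ (L ⟨Real.cos θ, Real.sin θ⟩) z) ≤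
      ENNReal.ofReal (W * hypArea φ z) * ENNReal.ofReal
        ((max (⟪hypMean φ z, L 1⟫ * Real.cos θ + ⟪hypMean φ z, L Complex.I⟫ * Real.sin θ - 1)
          0) ^ 2) := by
    intro θ
    rw [← ENNReal.ofReal_mul (by positivity)]
    apply ENNReal.ofReal_le_ofReal
    have hn : ‖L ⟨Real.cos θ, Real.sin θ⟩‖ = 1 := by rw [L.norm_map, norm_circle]
    have e : ⟪hypMean φ z, L ⟨Real.cos θ, Real.sin θ⟩⟫ =
        ⟪hypMean φ z, L 1⟫ * Real.cos θ + ⟪hypMean φ z, L Complex.I⟫ * Real.sin θ := by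
      rw [lin_circle, inner_add_right, real_inner_smul_right, real_inner_smul_right]
      ring
    unfold densH
    rw [e]
    have hw := weight_le hp hn
    have hw0 := weight_nonneg hp hn
    have hw3 : (ht (foot (φ z) (L ⟨Real.cos θ, Real.sin θ⟩)) (φ z))⁻¹ ^ 3 ≤ W :=
      pow_le_pow_left₀ hw0 hw 3
    calc _ ≤ W * (max (⟪hypMean φ z, L 1⟫ * Real.cos θ +
          ⟪hypMean φ z, L Complex.I⟫ * Real.sin θ - 1) 0) ^ 2 * hypArea φ z := by
          gcongr
      _ = _ := by ring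
  refine (lintegral_mono hle).trans ?_
  rw [lintegral_const_mul' _ _ ENNReal.ofReal_ne_top]
  refine (mul_le_mul_right (circle_le _ _ ‖hypMean φ z‖ (norm_nonneg _) (bessel L _)) _).trans ?_
  rw [← ENNReal.ofReal_mul (by positivity), ← ENNReal.ofReal_mul (by positivity)]
  apply ENNReal.ofReal_le_ofReal
  unfold energyH
  rw [← hW]
  apply le_of_eq
  ring

theorem excessAt_eq_zero {φ : ℂ → E4} {z : ℂ} (hp : ‖φ z‖ < 1) (hH : ‖hypMean φ z‖ ≤ 1) :
    excessAt φ z = 0 := by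
  refine le_antisymm ((excessAt_le hp).trans ?_) bot_le
  unfold energyH
  rw [max_eq_right (by linarith)]
  simp

/-! ### Slice discs -/

theorem disc_of_excess {φ : ℂ → E4} (h : SliceDisc φ) (m : ℕ)
    (hT : ∫⁻ z in ball (0 : ℂ) 1, excessAt φ z < ENNReal.ofReal (2 * Real.pi ^ 2 * (m + 1))) :
    ∃ ξ : E4, ‖ξ‖ = 1 ∧ (∀ z ∈ closedBall (0 : ℂ) 1, φ z ≠ ξ) ∧
      SliceDisc (fun w => push ξ (φ w)) ∧
      (∀ z ∈ sphere (0 : ℂ) 1, push ξ (φ z) = φ z) ∧
      MorseDisc (fun w => push ξ (φ w)) m := by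
  refine disc φ h m (lt_of_le_of_lt ?_ hT)
  refine setLIntegral_mono' isOpen_ball.measurableSet fun z hz => ?_
  exact curvAt_le (h.imm z (ball_subset_closedBall hz)) (h.inside z hz)

theorem disc_of_energy {φ : ℂ → E4} (h : SliceDisc φ) (m : ℕ)
    (hT : ∫⁻ z in ball (0 : ℂ) 1, ENNReal.ofReal (energyH φ z) <
      ENNReal.ofReal (4 * Real.pi * (m + 1))) :
    ∃ ξ : E4, ‖ξ‖ = 1 ∧ (∀ z ∈ closedBall (0 : ℂ) 1, φ z ≠ ξ) ∧
      SliceDisc (fun w => push ξ (φ w)) ∧
      (∀ z ∈ sphere (0 : ℂ) 1, push ξ (φ z) = φ z) ∧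
      MorseDisc (fun w => push ξ (φ w)) m := by
  have hpi := Real.pi_pos
  refine disc_of_excess h m ?_
  have h0 : ENNReal.ofReal (Real.pi / 2) ≠ 0 := by
    rw [Ne, ENNReal.ofReal_eq_zero, not_le]; positivity
  calc ∫⁻ z in ball (0 : ℂ) 1, excessAt φ z
      ≤ ∫⁻ z in ball (0 : ℂ) 1, ENNReal.ofReal (Real.pi / 2) * ENNReal.ofReal (energyH φ z) :=
        setLIntegral_mono' isOpen_ball.measurableSet fun z hz => excessAt_le (h.inside z hz)
    _ = ENNReal.ofReal (Real.pi / 2) *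
        ∫⁻ z in ball (0 : ℂ) 1, ENNReal.ofReal (energyH φ z) :=
        lintegral_const_mul' _ _ ENNReal.ofReal_ne_top
    _ < ENNReal.ofReal (Real.pi / 2) * ENNReal.ofReal (4 * Real.pi * (m + 1)) :=
        (ENNReal.mul_lt_mul_iff_right h0 ENNReal.ofReal_ne_top).2 hT
    _ = _ := by
        rw [← ENNReal.ofReal_mul (by positivity)]
        congr 1
        ring

theorem disc_of_pointwise {φ : ℂ → E4} (h : SliceDisc φ)
    (hH : ∀ᵐ z ∂(volume.restrict (ball (0 : ℂ) 1)), ‖hypMean φ z‖ ≤ 1) :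
    ∃ ξ : E4, ‖ξ‖ = 1 ∧ (∀ z ∈ closedBall (0 : ℂ) 1, φ z ≠ ξ) ∧
      SliceDisc (fun w => push ξ (φ w)) ∧
      (∀ z ∈ sphere (0 : ℂ) 1, push ξ (φ z) = φ z) ∧
      MorseDisc (fun w => push ξ (φ w)) 0 := by
  have hpi := Real.pi_pos
  refine disc_of_excess h 0 ?_
  have : ∫⁻ z in ball (0 : ℂ) 1, excessAt φ z = 0 := by
    rw [← lintegral_zero (μ := volume.restrict (ball (0 : ℂ) 1))]
    refine lintegral_congr_ae ?_
    filter_upwards [hH, ae_restrict_mem isOpen_ball.measurableSet] with z hz hz2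
    exact excessAt_eq_zero (h.inside z hz2) hz
  rw [this]
  rw [ENNReal.ofReal_pos]
  positivity

end Pool.Agent.Run7.h822.HM
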