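import Mathlib
import Pool.Agent.Run7.h822.HM.Bound

/-!
Hyperbolic second fundamental form of slice discs: conditions at the single points.
-/

set_option autoImplicit false

namespace Pool.Agent.Run7.h822.HM

open scoped ContDiff RealInnerProductSpace ENNReal NNReal Topology
open MeasureTheory Set Metric Filter
open Pool.Agent.Y503.RB Pool.Agent.N503.WI

/-- The second fundamental form with respect to the hyperbolic metric `4 |dx|² / (1 - |x|²)²` at
`φ z`, evaluated at the tangent vector `v` (twice), written in the hyperbolic orthonormal frame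
`(1 - |x|²) / 2 · e_i` and divided by `(2 / (1 - |x|²))²`. -/
noncomputable def hypSff (φ : ℂ → E4) (v z : ℂ) : E4 :=
  ((1 - ‖φ z‖ ^ 2) / 2) •
      (LinearMap.range (fderiv ℝ φ z).toLinearMap)ᗮ.starProjection (d2 φ v v z) -
    (‖d1 φ v z‖ ^ 2) • (LinearMap.range (fderiv ℝ φ z).toLinearMap)ᗮ.starProjection (φ z)

/-- There are tangent vectors `v`, `w`, not both zero, with `|II(v,v) + II(w,w)| ≤ |v|² + |w|²` in
the hyperbolic metric. For example a direction in which the normal curvature is at most 1, or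
(if `v`, `w` are orthonormal) a mean curvature vector of length at most 1. -/
def Slack (φ : ℂ → E4) (z : ℂ) : Prop :=
  ∃ v w : ℂ, (v ≠ 0 ∨ w ≠ 0) ∧
    ‖hypSff φ v z + hypSff φ w z‖ ≤ ‖d1 φ v z‖ ^ 2 + ‖d1 φ w z‖ ^ 2

theorem inner_hypSff {φ : ℂ → E4} {z : ℂ} {n : E4} (hn : ∀ v : ℂ, ⟪n, d1 φ v z⟫ = 0) (v : ℂ) :
    ⟪hypSff φ v z, n⟫ = (1 - ‖φ z‖ ^ 2) / 2 * sff φ n v v z - fff φ v v z * ⟪φ z, n⟫ := by
  have hmem : n ∈ (LinearMap.range (fderiv ℝ φ z).toLinearMap)ᗮ := by
    rw [Submodule.mem_orthogonal]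
    rintro x ⟨v, rfl⟩
    rw [real_inner_comm]
    exact hn v
  unfold hypSff sff fff
  rw [inner_sub_left, real_inner_smul_left, real_inner_smul_left,
    Submodule.inner_starProjection_left_eq_right, Submodule.inner_starProjection_left_eq_right,
    Submodule.starProjection_eq_self_iff.2 hmem, real_inner_comm n, real_inner_self_eq_norm_sq]

theorem inner_hypSff' {φ : ℂ → E4} {z : ℂ} {n : E4} (hp : ‖φ z‖ < 1) (h1 : ‖n‖ = 1)
    (hn : ∀ v : ℂ, ⟪n, d1 φ v z⟫ = 0) (v : ℂ) :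
    ⟪hypSff φ v z, n⟫ = (1 + ⟪φ z, n⟫) * exc φ n v v z + fff φ v v z := by
  rw [inner_hypSff hn]
  have h2 := one_add_pos hp h1
  have : rad (φ z) n * (2 * (1 + ⟪φ z, n⟫)) = 1 - ‖φ z‖ ^ 2 := by
    unfold rad
    field_simp
  have e : (1 - ‖φ z‖ ^ 2) / 2 = rad (φ z) n * (1 + ⟪φ z, n⟫) := by linarith
  rw [e]
  unfold exc
  ring

/-- The form `rad * II_n - I` is positive definite. -/
theorem exc_pos {φ : ℂ → E4} {z : ℂ} {n : E4} (hs : ContDiffAt ℝ ∞ φ z) (h : Inner φ n z) {v : ℂ}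
    (hv : v ≠ 0) : 0 < exc φ n v v z := by
  obtain ⟨ha, hb⟩ := h
  have hb' : 0 < exc φ n 1 1 z * exc φ n Complex.I Complex.I z - exc φ n 1 Complex.I z ^ 2 := hb
  have e : v = (v.re : ℂ) + (v.im : ℂ) * Complex.I := (Complex.re_add_im v).symm
  have hq := exc_quad Pool.Agent.Y640.RB.sym φ n v.re v.im z hs
  rw [← e] at hq
  rw [hq]
  set a := exc φ n 1 1 z
  set f := exc φ n 1 Complex.I z
  set g := exc φ n Complex.I Complex.I z
  have h3 : a * (v.re ^ 2 * a + 2 * v.re * v.im * f + v.im ^ 2 * g) =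
      (v.re * a + v.im * f) ^ 2 + v.im ^ 2 * (a * g - f ^ 2) := by ring
  have h4 : 0 < (v.re * a + v.im * f) ^ 2 + v.im ^ 2 * (a * g - f ^ 2) := by
    by_cases h5 : v.im = 0
    · have h6 : v.re ≠ 0 := by
        intro h7
        exact hv (Complex.ext h7 h5)
      rw [h5]
      have : 0 < (v.re * a) ^ 2 := by positivity
      nlinarith
    · have : 0 < v.im ^ 2 * (a * g - f ^ 2) := by positivity
      nlinarith [sq_nonneg (v.re * a + v.im * f)]
  rw [← h3] at h4
  exact (pos_iff_pos_of_mul_pos h4).1 ha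

theorem exc_nonneg {φ : ℂ → E4} {z : ℂ} {n : E4} (hs : ContDiffAt ℝ ∞ φ z) (h : Inner φ n z)
    (v : ℂ) : 0 ≤ exc φ n v v z := by
  by_cases hv : v = 0
  · rw [hv]
    unfold exc sff fff d1 d2
    simp
  · exact (exc_pos hs h hv).le

theorem not_inner {φ : ℂ → E4} {z : ℂ} {n : E4} (hs : ContDiffAt ℝ ∞ φ z) (hp : ‖φ z‖ < 1)
    (h1 : ‖n‖ = 1) (hn : ∀ v : ℂ, ⟪n, d1 φ v z⟫ = 0) (hS : Slack φ z) : ¬ Inner φ n z := by
  intro hI
  obtain ⟨v, w, hvw, hle⟩ := hS
  have h2 := one_add_pos hp h1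
  have e1 : ‖d1 φ v z‖ ^ 2 = fff φ v v z := by
    unfold fff; rw [real_inner_self_eq_norm_sq]
  have e2 : ‖d1 φ w z‖ ^ 2 = fff φ w w z := by
    unfold fff; rw [real_inner_self_eq_norm_sq]
  have h3 : ⟪hypSff φ v z + hypSff φ w z, n⟫ ≤ ‖hypSff φ v z + hypSff φ w z‖ := by
    have := real_inner_le_norm (hypSff φ v z + hypSff φ w z) n
    rwa [h1, mul_one] at this
  rw [inner_add_left, inner_hypSff' hp h1 hn, inner_hypSff' hp h1 hn] at h3
  rw [e1, e2] at hle
  have h4 : (1 + ⟪φ z, n⟫) * (exc φ n v v z + exc φ n w w z) ≤ 0 := by nlinarith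
  have h5 := exc_nonneg hs hI v
  have h6 := exc_nonneg hs hI w
  have h7 : 0 < exc φ n v v z + exc φ n w w z := by
    rcases hvw with h | h
    · have := exc_pos hs hI h
      linarith
    · have := exc_pos hs hI h
      linarith
  nlinarith [mul_pos h2 h7]

theorem curvAt_eq_zero {φ : ℂ → E4} {z : ℂ} (hs : ContDiffAt ℝ ∞ φ z) (hp : ‖φ z‖ < 1)
    (hS : Slack φ z) : curvAt φ z = 0 := by
  refine le_antisymm ?_ bot_le
  unfold curvAt
  refine iSup₂_le fun L hL => ?_
  have : ∀ θ : ℝ, ENNReal.ofReal (dens φ (L ⟨Real.cos θ, Real.sin θ⟩) z) = 0 := by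
    intro θ
    have hn : ‖L ⟨Real.cos θ, Real.sin θ⟩‖ = 1 := by rw [L.norm_map, norm_circle]
    have := not_inner hs hp hn (hL _) hS
    unfold dens
    rw [if_neg this, ENNReal.ofReal_zero]
  simp only [this, lintegral_zero]
  exact le_rfl

/-- The points of the open disc where the excess counts. -/
def Tight (φ : ℂ → E4) : Set ℂ := {z | z ∈ ball (0 : ℂ) 1 ∧ ¬ Slack φ z}

theorem SliceDisc.smoothAt {φ : ℂ → E4} (h : SliceDisc φ) {z : ℂ} (hz : z ∈ ball (0 : ℂ) 1) :
    ContDiffAt ℝ ∞ φ z := by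
  obtain ⟨W, hW, hsub, hs⟩ := h.smooth
  exact hs.contDiffAt (hW.mem_nhds (hsub (ball_subset_closedBall hz)))

theorem curv_le_tight {φ : ℂ → E4} (h : SliceDisc φ) :
    ∫⁻ z in ball (0 : ℂ) 1, curvAt φ z ≤ ∫⁻ z in Tight φ, excessAt φ z := by
  have h1 : ∫⁻ z in ball (0 : ℂ) 1, curvAt φ z ≤
      ∫⁻ z in ball (0 : ℂ) 1, {z | ¬ Slack φ z}.indicator (excessAt φ) z := by
    refine setLIntegral_mono' isOpen_ball.measurableSet fun z hz => ?_
    by_cases hS : Slack φ z
    · rw [curvAt_eq_zero (SliceDisc.smoothAt h hz) (h.inside z hz) hS]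
      exact bot_le
    · rw [indicator_of_mem (by exact hS)]
      exact curvAt_le (h.imm z (ball_subset_closedBall hz)) (h.inside z hz)
  refine h1.trans ((lintegral_indicator_le _ _).trans ?_)
  rw [Measure.restrict_restrict' isOpen_ball.measurableSet]
  refine lintegral_mono' (Measure.restrict_mono ?_ le_rfl) le_rfl
  intro z hz
  exact ⟨hz.2, hz.1⟩

/-- The conclusion: a disc with the same boundary on which the distance from the centre of the ball is a
Morse function with at most `m` local maxima; it is obtained by a diffeomorphism of the ball minus a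
boundary point which is the identity on the sphere. -/
def Improves (φ : ℂ → E4) (m : ℕ) : Prop :=
  ∃ ξ : E4, ‖ξ‖ = 1 ∧ (∀ z ∈ closedBall (0 : ℂ) 1, φ z ≠ ξ) ∧
    SliceDisc (fun w => push ξ (φ w)) ∧
    (∀ z ∈ sphere (0 : ℂ) 1, push ξ (φ z) = φ z) ∧
    MorseDisc (fun w => push ξ (φ w)) m

theorem of_excess {φ : ℂ → E4} (h : SliceDisc φ) (m : ℕ)
    (hT : ∫⁻ z in Tight φ, excessAt φ z < ENNReal.ofReal (2 * Real.pi ^ 2 * (m + 1))) :
    Improves φ m :=
  disc φ h m (lt_of_le_of_lt (curv_le_tight h) hT)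

theorem excess_le_energy {φ : ℂ → E4} (h : SliceDisc φ) :
    ∫⁻ z in Tight φ, excessAt φ z ≤
      ENNReal.ofReal (Real.pi / 2) * ∫⁻ z in Tight φ, ENNReal.ofReal (energyH φ z) := by
  rw [← lintegral_const_mul' _ _ ENNReal.ofReal_ne_top]
  have key : ∀ z ∈ ball (0 : ℂ) 1, excessAt φ z ≤
      ENNReal.ofReal (Real.pi / 2) * ENNReal.ofReal (energyH φ z) :=
    fun z hz => excessAt_le (h.inside z hz)
  have e : (volume : Measure ℂ).restrict (Tight φ) =
      ((volume : Measure ℂ).restrict (ball (0 : ℂ) 1)).restrict {z | ¬ Slack φ z} := by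
    rw [Measure.restrict_restrict' isOpen_ball.measurableSet]
    congr 1
    ext z
    exact and_comm
  have hae : ∀ᵐ z ∂((volume : Measure ℂ).restrict (Tight φ)), z ∈ ball (0 : ℂ) 1 := by
    rw [e]
    exact ae_restrict_of_ae (ae_restrict_mem isOpen_ball.measurableSet)
  refine lintegral_mono_ae ?_
  filter_upwards [hae] with z hz
  exact key z hz

theorem of_energy {φ : ℂ → E4} (h : SliceDisc φ) (m : ℕ)
    (hT : ∫⁻ z in Tight φ, ENNReal.ofReal (energyH φ z) < ENNReal.ofReal (4 * Real.pi * (m + 1))) :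
    Improves φ m := by
  have hpi := Real.pi_pos
  have h0 : ENNReal.ofReal (Real.pi / 2) ≠ 0 := by
    rw [Ne, ENNReal.ofReal_eq_zero, not_le]; positivity
  refine of_excess h m (lt_of_le_of_lt (excess_le_energy h) ?_)
  calc ENNReal.ofReal (Real.pi / 2) * ∫⁻ z in Tight φ, ENNReal.ofReal (energyH φ z)
      < ENNReal.ofReal (Real.pi / 2) * ENNReal.ofReal (4 * Real.pi * (m + 1)) :=
        (ENNReal.mul_lt_mul_iff_right h0 ENNReal.ofReal_ne_top).2 hT
    _ = _ := by
        rw [← ENNReal.ofReal_mul (by positivity)]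
        congr 1
        ring

theorem of_pointwise {φ : ℂ → E4} (h : SliceDisc φ)
    (hH : ∀ᵐ z ∂(volume.restrict (ball (0 : ℂ) 1)), Slack φ z ∨ ‖hypMean φ z‖ ≤ 1) :
    Improves φ 0 := by
  have hpi := Real.pi_pos
  refine disc φ h 0 ?_
  have : ∫⁻ z in ball (0 : ℂ) 1, curvAt φ z = 0 := by
    rw [← lintegral_zero (μ := volume.restrict (ball (0 : ℂ) 1))]
    refine lintegral_congr_ae ?_
    filter_upwards [hH, ae_restrict_mem isOpen_ball.measurableSet] with z hz hz2
    rcases hz with hz | hz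
    · exact curvAt_eq_zero (SliceDisc.smoothAt h hz2) (h.inside z hz2) hz
    · refine le_antisymm ?_ bot_le
      rw [← excessAt_eq_zero (h.inside z hz2) hz]
      exact curvAt_le (h.imm z (ball_subset_closedBall hz2)) (h.inside z hz2)
  rw [this]
  rw [ENNReal.ofReal_pos]
  positivity

end Pool.Agent.Run7.h822.HM
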