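import Mathlib
import Pool.Agent.Run7.h822.HM.Point

/-!
The curvature ellipse: the points without a normal direction of large curvature.
-/

set_option autoImplicit false

namespace Pool.Agent.Run7.h822.HM

open scoped ContDiff RealInnerProductSpace ENNReal NNReal Topology
open MeasureTheory Set Metric Filter
open Pool.Agent.Y503.RB Pool.Agent.N503.WI

/-- Either some convex combination of values of the quadratic form has norm at most one, or there is a
direction in which all values are larger than one. -/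
theorem minimax (x1 x12 x2 : E4) (N : Submodule ℝ E4) (h1 : x1 ∈ N) (h12 : x12 ∈ N)
    (h2 : x2 ∈ N) :
    (∃ a b c d : ℝ, a ^ 2 + b ^ 2 + c ^ 2 + d ^ 2 = 1 ∧
      ‖(a ^ 2 + c ^ 2) • x1 + (2 * (a * b + c * d)) • x12 + (b ^ 2 + d ^ 2) • x2‖ ≤ 1) ∨
    (∃ x0 ∈ N, 1 < ‖x0‖ ∧ ∀ a b : ℝ, a ^ 2 + b ^ 2 = 1 →
      ‖x0‖ ^ 2 ≤ ⟪a ^ 2 • x1 + (2 * a * b) • x12 + b ^ 2 • x2, x0⟫) := by
  classical
  let k : ℂ → E4 := fun p => ((1 + p.re) / 2) • x1 + p.im • x12 + ((1 - p.re) / 2) • x2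
  have hkc : Continuous k := by
    show Continuous fun p : ℂ => ((1 + p.re) / 2) • x1 + p.im • x12 + ((1 - p.re) / 2) • x2
    fun_prop
  let K : Set E4 := k '' closedBall 0 1
  have hne : K.Nonempty := ⟨k 0, 0, by simp, rfl⟩
  have hcomp : IsComplete K := ((isCompact_closedBall (0 : ℂ) 1).image hkc).isComplete
  have hconv : Convex ℝ K := by
    rintro _ ⟨p, hp, rfl⟩ _ ⟨q, hq, rfl⟩ s t hs ht hst
    refine ⟨s • p + t • q, convex_closedBall (0 : ℂ) 1 hp hq hs ht hst, ?_⟩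
    have e1 : (s • p + t • q).re = s * p.re + t * q.re := by simp
    have e2 : (s • p + t • q).im = s * p.im + t * q.im := by simp
    show ((1 + (s • p + t • q).re) / 2) • x1 + (s • p + t • q).im • x12 +
      ((1 - (s • p + t • q).re) / 2) • x2 = s • (((1 + p.re) / 2) • x1 + p.im • x12 +
        ((1 - p.re) / 2) • x2) + t • (((1 + q.re) / 2) • x1 + q.im • x12 +
        ((1 - q.re) / 2) • x2)
    rw [e1, e2]
    have ht' : t = 1 - s := by linarith
    subst ht'
    module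
  obtain ⟨x0, hx0, hmin⟩ := exists_norm_eq_iInf_of_complete_convex hne hcomp hconv 0
  have hvar := (norm_eq_iInf_iff_real_inner_le_zero hconv hx0).1 hmin
  obtain ⟨p, hp, hpx⟩ := hx0
  have hp1 : p.re ^ 2 + p.im ^ 2 ≤ 1 := by
    have h3 : ‖p‖ ≤ 1 := by simpa using hp
    have h4 : ‖p‖ ^ 2 = p.re ^ 2 + p.im ^ 2 := by
      rw [← Complex.normSq_eq_norm_sq, Complex.normSq_apply]; ring
    nlinarith [norm_nonneg p]
  rcases le_or_gt ‖x0‖ 1 with hle | hgt
  · left
    have hx : x0 = ((1 + p.re) / 2) • x1 + p.im • x12 + ((1 - p.re) / 2) • x2 := hpx.symm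
    by_cases hs : p.re = -1
    · have hi : p.im = 0 := by
        rw [hs] at hp1
        nlinarith [sq_nonneg p.im]
      refine ⟨0, 1, 0, 0, by norm_num, ?_⟩
      rw [hs, hi] at hx
      have : (((0:ℝ) ^ 2 + 0 ^ 2) • x1 + (2 * ((0:ℝ) * 1 + 0 * 0)) • x12 +
          ((1:ℝ) ^ 2 + 0 ^ 2) • x2) = x0 := by
        rw [hx]
        norm_num
      rw [this]
      exact hle
    · have hs1 : -1 < p.re := by
        have h5 : -1 ≤ p.re := by nlinarith [sq_nonneg p.im]
        exact lt_of_le_of_ne h5 (Ne.symm hs)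
      have ha0 : 0 < (1 + p.re) / 2 := by linarith
      set a := √((1 + p.re) / 2) with ha
      have ha1 : 0 < a := Real.sqrt_pos.2 ha0
      have ha2 : a ^ 2 = (1 + p.re) / 2 := Real.sq_sqrt ha0.le
      set b := p.im / (2 * a) with hb
      have hab : a * b = p.im / 2 := by
        rw [hb]; field_simp
      have hb2 : b ^ 2 ≤ (1 - p.re) / 2 := by
        have h6 : a ^ 2 * b ^ 2 ≤ a ^ 2 * ((1 - p.re) / 2) := by
          rw [← mul_pow, hab, ha2]
          nlinarith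
        exact le_of_mul_le_mul_left h6 (by positivity)
      set d := √((1 - p.re) / 2 - b ^ 2) with hd
      have hd2 : d ^ 2 = (1 - p.re) / 2 - b ^ 2 := Real.sq_sqrt (by linarith)
      refine ⟨a, b, 0, d, by nlinarith, ?_⟩
      have : ((a ^ 2 + 0 ^ 2) • x1 + (2 * (a * b + 0 * d)) • x12 + (b ^ 2 + d ^ 2) • x2) = x0 := by
        rw [hx, ha2, hd2, hab]
        congr 1
        · congr 1
          · congr 1; ring
          · congr 1; ring
        · congr 1; ring
      rw [this]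
      exact hle
  · right
    refine ⟨x0, ?_, hgt, ?_⟩
    · rw [← hpx]
      exact N.add_mem (N.add_mem (N.smul_mem _ h1) (N.smul_mem _ h12)) (N.smul_mem _ h2)
    · intro a b hab
      have hq : (⟨a ^ 2 - b ^ 2, 2 * a * b⟩ : ℂ) ∈ closedBall (0 : ℂ) 1 := by
        rw [mem_closedBall_zero_iff]
        have h4 : ‖(⟨a ^ 2 - b ^ 2, 2 * a * b⟩ : ℂ)‖ ^ 2 = 1 := by
          rw [← Complex.normSq_eq_norm_sq, Complex.normSq_mk]
          have : (a ^ 2 - b ^ 2) * (a ^ 2 - b ^ 2) + 2 * a * b * (2 * a * b) =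
            (a ^ 2 + b ^ 2) ^ 2 := by ring
          rw [this, hab]; norm_num
        nlinarith [norm_nonneg (⟨a ^ 2 - b ^ 2, 2 * a * b⟩ : ℂ)]
      have h7 := hvar _ (mem_image_of_mem k hq)
      have e : k ⟨a ^ 2 - b ^ 2, 2 * a * b⟩ = a ^ 2 • x1 + (2 * a * b) • x12 + b ^ 2 • x2 := by
        show ((1 + (a ^ 2 - b ^ 2)) / 2) • x1 + (2 * a * b) • x12 +
          ((1 - (a ^ 2 - b ^ 2)) / 2) • x2 = _
        have e1 : (1 + (a ^ 2 - b ^ 2)) / 2 = a ^ 2 := by linarith
        have e2 : (1 - (a ^ 2 - b ^ 2)) / 2 = b ^ 2 := by linarith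
        rw [e1, e2]
      rw [e, zero_sub, inner_neg_left, inner_sub_right, real_inner_self_eq_norm_sq] at h7
      rw [real_inner_comm]
      linarith

/-- A basis of the tangent vectors which is mapped to an orthonormal one. -/
theorem exists_onb {f : ℂ →L[ℝ] E4} (hi : Function.Injective f) :
    ∃ v1 v2 : ℂ, ‖f v1‖ = 1 ∧ ‖f v2‖ = 1 ∧ ⟪f v1, f v2⟫ = 0 ∧
      ∀ v : ℂ, ∃ a b : ℝ, v = a • v1 + b • v2 := by
  have h1 : f 1 ≠ 0 := by
    intro h
    exact one_ne_zero (hi (by rw [h, map_zero] : f 1 = f 0))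
  have hn1 : 0 < ‖f 1‖ := norm_pos_iff.2 h1
  obtain ⟨v1, hv1⟩ : ∃ x : ℂ, x = ‖f 1‖⁻¹ • (1 : ℂ) := ⟨_, rfl⟩
  have hf1 : ‖f v1‖ = 1 := by
    rw [hv1, map_smul, norm_smul, norm_inv, norm_norm, inv_mul_cancel₀ hn1.ne']
  obtain ⟨c, hc⟩ : ∃ c : ℝ, c = ⟪f v1, f Complex.I⟫ := ⟨_, rfl⟩
  obtain ⟨w, hw⟩ : ∃ w : ℂ, w = Complex.I - c • v1 := ⟨_, rfl⟩
  have hw0 : f w ≠ 0 := by
    intro h
    have h2 : w = 0 := hi (by rw [h, map_zero])
    have h3 := congrArg Complex.im h2
    rw [hw, hv1] at h3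
    simp at h3
  have hnw : 0 < ‖f w‖ := norm_pos_iff.2 hw0
  have horth : ⟪f v1, f w⟫ = 0 := by
    rw [hw, map_sub, map_smul, inner_sub_right, real_inner_smul_right,
      real_inner_self_eq_norm_sq, hf1, ← hc]
    ring
  obtain ⟨v2, hv2⟩ : ∃ v2 : ℂ, v2 = ‖f w‖⁻¹ • w := ⟨_, rfl⟩
  refine ⟨v1, v2, hf1, ?_, ?_, ?_⟩
  · rw [hv2, map_smul, norm_smul, norm_inv, norm_norm, inv_mul_cancel₀ hnw.ne']
  · rw [hv2, map_smul, real_inner_smul_right, horth, mul_zero]
  · intro v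
    refine ⟨v.re * ‖f 1‖ + v.im * c, v.im * ‖f w‖, ?_⟩
    have e1 : v = v.re • (1 : ℂ) + v.im • Complex.I := by
      apply Complex.ext <;> simp
    have e2 : (1 : ℂ) = ‖f 1‖ • v1 := by
      rw [hv1, smul_smul, mul_inv_cancel₀ hn1.ne', one_smul]
    have e3 : Complex.I = w + c • v1 := by rw [hw]; abel
    have e4 : w = ‖f w‖ • v2 := by
      rw [hv2, smul_smul, mul_inv_cancel₀ hnw.ne', one_smul]
    have e5 : (v.re * ‖f 1‖ + v.im * c) • v1 + (v.im * ‖f w‖) • v2 =
        v.re • (‖f 1‖ • v1) + v.im • ((‖f w‖ • v2) + c • v1) := by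
      rw [smul_add, smul_smul, smul_smul, smul_smul, add_smul]
      abel
    rw [e5, ← e2, ← e4, ← e3]
    exact e1

/-- The polarised form. -/
noncomputable def hypB (φ : ℂ → E4) (u v z : ℂ) : E4 :=
  ((1 - ‖φ z‖ ^ 2) / 2) •
      (LinearMap.range (fderiv ℝ φ z).toLinearMap)ᗮ.starProjection (d2 φ u v z) -
    ⟪d1 φ u z, d1 φ v z⟫ • (LinearMap.range (fderiv ℝ φ z).toLinearMap)ᗮ.starProjection (φ z)

theorem hypSff_comb {φ : ℂ → E4} {z : ℂ} (hs : ContDiffAt ℝ ∞ φ z) (a b : ℝ) (u v : ℂ) :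
    hypSff φ (a • u + b • v) z =
      a ^ 2 • hypSff φ u z + (2 * a * b) • hypB φ u v z + b ^ 2 • hypSff φ v z := by
  have hl : ∀ w : ℂ, d2 φ (a • u + b • v) w z = a • d2 φ u w z + b • d2 φ v w z := by
    intro w
    unfold d2
    rw [map_add, map_smul, map_smul]
  have hsym : ∀ x y : ℂ, d2 φ x y z = d2 φ y x z := fun x y => Pool.Agent.Y640.RB.sym φ z hs x y
  have h2 : d2 φ (a • u + b • v) (a • u + b • v) z =
      a ^ 2 • d2 φ u u z + (2 * a * b) • d2 φ u v z + b ^ 2 • d2 φ v v z := by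
    rw [hl, hsym u, hsym v, hl, hl, hsym v u]
    module
  have h1 : ‖d1 φ (a • u + b • v) z‖ ^ 2 =
      a ^ 2 * ‖d1 φ u z‖ ^ 2 + 2 * a * b * ⟪d1 φ u z, d1 φ v z⟫ + b ^ 2 * ‖d1 φ v z‖ ^ 2 := by
    have : d1 φ (a • u + b • v) z = a • d1 φ u z + b • d1 φ v z := by
      unfold d1
      rw [map_add, map_smul, map_smul]
    rw [this, norm_add_sq_real, norm_smul, norm_smul, real_inner_smul_left,
      real_inner_smul_right, mul_pow, mul_pow, Real.norm_eq_abs, Real.norm_eq_abs, sq_abs, sq_abs]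
    ring
  unfold hypSff hypB
  rw [h2, h1, map_add, map_add, map_smul, map_smul, map_smul]
  module

theorem hypSff_mem (φ : ℂ → E4) (v z : ℂ) :
    hypSff φ v z ∈ (LinearMap.range (fderiv ℝ φ z).toLinearMap)ᗮ := by
  unfold hypSff
  exact Submodule.sub_mem _ (Submodule.smul_mem _ _ (Submodule.starProjection_apply_mem _ _))
    (Submodule.smul_mem _ _ (Submodule.starProjection_apply_mem _ _))

theorem hypB_mem (φ : ℂ → E4) (u v z : ℂ) :
    hypB φ u v z ∈ (LinearMap.range (fderiv ℝ φ z).toLinearMap)ᗮ := by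
  unfold hypB
  exact Submodule.sub_mem _ (Submodule.smul_mem _ _ (Submodule.starProjection_apply_mem _ _))
    (Submodule.smul_mem _ _ (Submodule.starProjection_apply_mem _ _))

/-- At a point which is not slack there is an inner normal vector. -/
theorem slack_or {φ : ℂ → E4} {z : ℂ} (hs : ContDiffAt ℝ ∞ φ z) (hp : ‖φ z‖ < 1)
    (hi : Function.Injective (fderiv ℝ φ z)) :
    Slack φ z ∨ ∃ n : E4, ‖n‖ = 1 ∧ (∀ v : ℂ, ⟪n, d1 φ v z⟫ = 0) ∧ Inner φ n z := by
  obtain ⟨v1, v2, hn1, hn2, ho, hspan⟩ := exists_onb hi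
  have hn1' : ‖d1 φ v1 z‖ = 1 := hn1
  have hn2' : ‖d1 φ v2 z‖ = 1 := hn2
  have ho' : ⟪d1 φ v1 z, d1 φ v2 z⟫ = 0 := ho
  have hT : ∀ a b : ℝ, ‖d1 φ (a • v1 + b • v2) z‖ ^ 2 = a ^ 2 + b ^ 2 := by
    intro a b
    have : d1 φ (a • v1 + b • v2) z = a • d1 φ v1 z + b • d1 φ v2 z := by
      unfold d1
      rw [map_add, map_smul, map_smul]
    rw [this, norm_add_sq_real, norm_smul, norm_smul, real_inner_smul_left,
      real_inner_smul_right, ho', hn1', hn2', mul_pow, mul_pow, Real.norm_eq_abs,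
      Real.norm_eq_abs, sq_abs, sq_abs]
    ring
  rcases minimax (hypSff φ v1 z) (hypB φ v1 v2 z) (hypSff φ v2 z) _ (hypSff_mem φ v1 z)
    (hypB_mem φ v1 v2 z) (hypSff_mem φ v2 z) with h | h
  · left
    obtain ⟨a, b, c, d, habcd, hle⟩ := h
    refine ⟨a • v1 + b • v2, c • v1 + d • v2, ?_, ?_⟩
    · by_contra hcon
      push Not at hcon
      have e1 := hT a b
      have e2 := hT c d
      rw [hcon.1] at e1
      rw [hcon.2] at e2
      have e0 : d1 φ 0 z = 0 := by unfold d1; rw [map_zero]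
      rw [e0, norm_zero] at e1 e2
      nlinarith
    · rw [hT, hT, hypSff_comb hs, hypSff_comb hs]
      have e : a ^ 2 • hypSff φ v1 z + (2 * a * b) • hypB φ v1 v2 z + b ^ 2 • hypSff φ v2 z +
          (c ^ 2 • hypSff φ v1 z + (2 * c * d) • hypB φ v1 v2 z + d ^ 2 • hypSff φ v2 z) =
          (a ^ 2 + c ^ 2) • hypSff φ v1 z + (2 * (a * b + c * d)) • hypB φ v1 v2 z +
            (b ^ 2 + d ^ 2) • hypSff φ v2 z := by module
      rw [e]
      linarith
  · right
    obtain ⟨x0, hx0, hgt, hall⟩ := h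
    have hpos : 0 < ‖x0‖ := by linarith
    set n : E4 := ‖x0‖⁻¹ • x0 with hn
    have hn1 : ‖n‖ = 1 := by
      rw [hn, norm_smul, norm_inv, norm_norm, inv_mul_cancel₀ hpos.ne']
    have hnorm : ∀ v : ℂ, ⟪n, d1 φ v z⟫ = 0 := by
      intro v
      have := (Submodule.mem_orthogonal _ _).1 hx0 (d1 φ v z) ⟨v, rfl⟩
      rw [hn, real_inner_smul_left, real_inner_comm, this, mul_zero]
    have h2 := one_add_pos hp hn1
    have hexc : ∀ v : ℂ, v ≠ 0 → 0 < exc φ n v v z := by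
      intro v hv
      obtain ⟨a, b, hab⟩ := hspan v
      have hr : 0 < a ^ 2 + b ^ 2 := by
        by_contra hcon
        push Not at hcon
        have ha : a = 0 := by nlinarith [sq_nonneg a, sq_nonneg b]
        have hb : b = 0 := by nlinarith [sq_nonneg a, sq_nonneg b]
        rw [ha, hb] at hab
        simp at hab
        exact hv hab
      set r := √(a ^ 2 + b ^ 2) with hrr
      have hr0 : 0 < r := Real.sqrt_pos.2 hr
      have hr2 : r ^ 2 = a ^ 2 + b ^ 2 := Real.sq_sqrt hr.le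
      have h3 := hall (a / r) (b / r) (by
        rw [div_pow, div_pow, ← add_div, ← hr2, div_self (by positivity)])
      have h4 : ⟪hypSff φ v z, x0⟫ = r ^ 2 * ⟪(a / r) ^ 2 • hypSff φ v1 z +
          (2 * (a / r) * (b / r)) • hypB φ v1 v2 z + (b / r) ^ 2 • hypSff φ v2 z, x0⟫ := by
        rw [← real_inner_smul_left, hab, hypSff_comb hs]
        congr 1
        rw [smul_add, smul_add, smul_smul, smul_smul, smul_smul]
        congr 1
        · congr 1
          · congr 1; field_simp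
          · congr 1; field_simp
        · congr 1; field_simp
      have h5 : r ^ 2 < ⟪hypSff φ v z, n⟫ := by
        rw [hn, real_inner_smul_right, h4]
        have h6 : r ^ 2 * ‖x0‖ ^ 2 ≤ r ^ 2 * ⟪(a / r) ^ 2 • hypSff φ v1 z +
          (2 * (a / r) * (b / r)) • hypB φ v1 v2 z + (b / r) ^ 2 • hypSff φ v2 z, x0⟫ :=
          mul_le_mul_of_nonneg_left h3 (by positivity)
        calc r ^ 2 < r ^ 2 * ‖x0‖ := by nlinarith [pow_pos hr0 2]
          _ = ‖x0‖⁻¹ * (r ^ 2 * ‖x0‖ ^ 2) := by field_simp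
          _ ≤ _ := mul_le_mul_of_nonneg_left h6 (by positivity)
      have h7 : fff φ v v z = r ^ 2 := by
        unfold fff
        rw [real_inner_self_eq_norm_sq, hr2, hab, hT]
      rw [inner_hypSff' hp hn1 hnorm, h7] at h5
      have h8 : 0 < (1 + ⟪φ z, n⟫) * exc φ n v v z := by linarith
      exact (pos_iff_pos_of_mul_pos h8).1 h2
    refine ⟨n, hn1, hnorm, hexc 1 one_ne_zero, ?_⟩
    set e := exc φ n 1 1 z with he
    set f := exc φ n 1 Complex.I z with hf
    set g := exc φ n Complex.I Complex.I z with hg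
    have he0 : 0 < e := hexc 1 one_ne_zero
    have hv : ((-f : ℝ) : ℂ) + ((e : ℝ) : ℂ) * Complex.I ≠ 0 := by
      intro h9
      have := congrArg Complex.im h9
      simp at this
      exact he0.ne' this
    have h10 := hexc _ hv
    rw [exc_quad Pool.Agent.Y640.RB.sym φ n (-f) e z hs, ← he, ← hf, ← hg] at h10
    have h11 : 0 < e * (e * g - f ^ 2) := by nlinarith
    exact (pos_iff_pos_of_mul_pos h11).1 he0

/-- If the length of the mean curvature vector is at most one then the point is slack. -/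
theorem slack_of_mean {φ : ℂ → E4} {z : ℂ} (hs : ContDiffAt ℝ ∞ φ z) (hp : ‖φ z‖ < 1)
    (hi : Function.Injective (fderiv ℝ φ z)) (hH : ‖hypMean φ z‖ ≤ 1) : Slack φ z := by
  rcases slack_or hs hp hi with h | ⟨n, hn, hn2, hI⟩
  · exact h
  · exfalso
    have hd := Pool.Agent.Y503.RB.fffDet_pos hi
    have hE := fff_pos hi
    have hip := one_add_pos hp hn
    obtain ⟨ha, hb⟩ := hI
    have hb' : 0 < exc φ n 1 1 z * exc φ n Complex.I Complex.I z - exc φ n 1 Complex.I z ^ 2 := hb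
    have e : fffDet φ z = fff φ 1 1 z * fff φ Complex.I Complex.I z - fff φ 1 Complex.I z ^ 2 := rfl
    have ht := trace_exc hi hn2
    have hpos := trace_pos (G := fff φ Complex.I Complex.I z) (F := fff φ 1 Complex.I z) hE
      (by rw [← e]; exact hd) ha hb'
    rw [ht] at hpos
    have hk : 0 < rad (φ z) n * ⟪meanCurv φ z, n⟫ - 1 := by
      by_contra hcon
      push Not at hcon
      have : 2 * fffDet φ z * (rad (φ z) n * ⟪meanCurv φ z, n⟫ - 1) ≤ 0 :=
        mul_nonpos_of_nonneg_of_nonpos (by positivity) hcon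
      linarith
    have h3 := inner_sub_one hp hn hn2
    have h4 : ⟪hypMean φ z, n⟫ ≤ ‖hypMean φ z‖ := by
      have := real_inner_le_norm (hypMean φ z) n
      rwa [hn, mul_one] at this
    have h5 : 0 < (1 + ⟪φ z, n⟫) * (rad (φ z) n * ⟪meanCurv φ z, n⟫ - 1) := mul_pos hip hk
    linarith

end Pool.Agent.Run7.h822.HM
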