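import Pool.Agent.Run7.h822.HM.Cover
import Pool.Agent.Y503.RB.GapAll

/-!
Surfaces in hyperbolic four-space: slack points, mean curvature and the number of local maxima.
-/

set_option autoImplicit false

namespace Pool.Agent.Run7.h822.HM

open scoped ContDiff RealInnerProductSpace ENNReal NNReal Topology
open MeasureTheory Set Metric Filter
open Pool.Agent.Y503.RB Pool.Agent.N503.WI

/-- The points of `A` which are not slack. -/
def TightIn (φ : ℂ → E4) (A : Set ℂ) : Set ℂ := {z | z ∈ A ∧ ¬ Slack φ z}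

/-- Integral of `excessAt` over the tight points of the surface `F`: infimum over all countable
families of parametrised pieces of `F` which cover the part of `F` in the open ball. -/
noncomputable def surfExcess (F : Set E4) : ℝ≥0∞ :=
  ⨅ (φ : ℕ → ℂ → E4) (U : ℕ → Set ℂ) (A : ℕ → Set ℂ) (_ : Covers F φ U A),
    ∑' i, ∫⁻ z in TightIn (φ i) (A i), excessAt (φ i) z

/-- Integral of `energyH` over the tight points of the surface `F`. -/
noncomputable def surfEnergy (F : Set E4) : ℝ≥0∞ :=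
  ⨅ (φ : ℕ → ℂ → E4) (U : ℕ → Set ℂ) (A : ℕ → Set ℂ) (_ : Covers F φ U A),
    ∑' i, ∫⁻ z in TightIn (φ i) (A i), ENNReal.ofReal (energyH (φ i) z)

/-- The length of the mean curvature vector is at most one. -/
def MeanLeOne (F : Set E4) : Prop :=
  ∃ (φ : ℕ → ℂ → E4) (U : ℕ → Set ℂ), Covers F φ U U ∧ ∀ i, ∀ z ∈ U i, ‖hypMean (φ i) z‖ ≤ 1

theorem patch_at {φ : ℂ → E4} {U : Set ℂ} (h : Patch φ U) {z : ℂ} (hz : z ∈ U) :
    ContDiffAt ℝ ∞ φ z := h.smooth.contDiffAt (h.isOpen.mem_nhds hz)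

theorem patch_curv_le {φ : ℂ → E4} {U A : Set ℂ} (h : Patch φ U) (hA : MeasurableSet A)
    (hAU : A ⊆ U) :
    ∫⁻ z in A, curvAt φ z ≤ ∫⁻ z in TightIn φ A, excessAt φ z := by
  have h1 : ∫⁻ z in A, curvAt φ z ≤
      ∫⁻ z in A, {z | ¬ Slack φ z}.indicator (excessAt φ) z := by
    refine setLIntegral_mono' hA fun z hz => ?_
    by_cases hS : Slack φ z
    · rw [curvAt_eq_zero (patch_at h (hAU hz)) (h.inside z (hAU hz)) hS]
      exact bot_le
    · rw [indicator_of_mem (by exact hS)]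
      exact curvAt_le (h.imm z (hAU hz)) (h.inside z (hAU hz))
  refine h1.trans ((lintegral_indicator_le _ _).trans ?_)
  rw [Measure.restrict_restrict' hA]
  refine lintegral_mono' (Measure.restrict_mono ?_ le_rfl) le_rfl
  intro z hz
  exact ⟨hz.2, hz.1⟩

theorem patch_excess_le {φ : ℂ → E4} {U A : Set ℂ} (h : Patch φ U) (hA : MeasurableSet A)
    (hAU : A ⊆ U) :
    ∫⁻ z in TightIn φ A, excessAt φ z ≤
      ENNReal.ofReal (Real.pi / 2) * ∫⁻ z in TightIn φ A, ENNReal.ofReal (energyH φ z) := by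
  rw [← lintegral_const_mul' _ _ ENNReal.ofReal_ne_top]
  have key : ∀ z ∈ A, excessAt φ z ≤
      ENNReal.ofReal (Real.pi / 2) * ENNReal.ofReal (energyH φ z) :=
    fun z hz => excessAt_le (h.inside z (hAU hz))
  have e : (volume : Measure ℂ).restrict (TightIn φ A) =
      ((volume : Measure ℂ).restrict A).restrict {z | ¬ Slack φ z} := by
    rw [Measure.restrict_restrict' hA]
    congr 1
    ext z
    exact and_comm
  have hae : ∀ᵐ z ∂((volume : Measure ℂ).restrict (TightIn φ A)), z ∈ A := by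
    rw [e]
    exact ae_restrict_of_ae (ae_restrict_mem hA)
  refine lintegral_mono_ae ?_
  filter_upwards [hae] with z hz
  exact key z hz

theorem totalCurv_le (F : Set E4) : totalCurv F ≤ surfExcess F := by
  unfold totalCurv surfExcess
  refine iInf_mono fun φ => iInf_mono fun U => iInf_mono fun A => iInf_mono fun h => ?_
  exact ENNReal.tsum_le_tsum fun i => patch_curv_le (h.1 i).1 (h.1 i).2.2.1 (h.1 i).2.2.2

theorem surfExcess_le (F : Set E4) :
    surfExcess F ≤ ENNReal.ofReal (Real.pi / 2) * surfEnergy F := by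
  have h0 : ENNReal.ofReal (Real.pi / 2) ≠ 0 := by
    rw [Ne, ENNReal.ofReal_eq_zero, not_le]
    have := Real.pi_pos
    positivity
  unfold surfExcess surfEnergy
  rw [ENNReal.mul_iInf_of_ne h0 ENNReal.ofReal_ne_top]
  refine iInf_mono fun φ => ?_
  rw [ENNReal.mul_iInf_of_ne h0 ENNReal.ofReal_ne_top]
  refine iInf_mono fun U => ?_
  rw [ENNReal.mul_iInf_of_ne h0 ENNReal.ofReal_ne_top]
  refine iInf_mono fun A => ?_
  rw [ENNReal.mul_iInf_of_ne h0 ENNReal.ofReal_ne_top]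
  refine iInf_mono fun h => ?_
  rw [← ENNReal.tsum_mul_left]
  exact ENNReal.tsum_le_tsum fun i => patch_excess_le (h.1 i).1 (h.1 i).2.2.1 (h.1 i).2.2.2

theorem excess_of_energy {F : Set E4} {m : ℕ}
    (hT : surfEnergy F < ENNReal.ofReal (4 * Real.pi * (m + 1))) :
    surfExcess F < ENNReal.ofReal (2 * Real.pi ^ 2 * (m + 1)) := by
  have hpi := Real.pi_pos
  have h0 : ENNReal.ofReal (Real.pi / 2) ≠ 0 := by
    rw [Ne, ENNReal.ofReal_eq_zero, not_le]; positivity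
  refine (surfExcess_le F).trans_lt ?_
  calc ENNReal.ofReal (Real.pi / 2) * surfEnergy F
      < ENNReal.ofReal (Real.pi / 2) * ENNReal.ofReal (4 * Real.pi * (m + 1)) :=
        (ENNReal.mul_lt_mul_iff_right h0 ENNReal.ofReal_ne_top).2 hT
    _ = _ := by
        rw [← ENNReal.ofReal_mul (by positivity)]
        congr 1
        ring

theorem energy_zero {F : Set E4} (h : SlackSurf F) : surfEnergy F = 0 := by
  obtain ⟨φ, U, h1, h2⟩ := h
  refine le_antisymm ?_ bot_le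
  unfold surfEnergy
  refine iInf_le_of_le φ (iInf_le_of_le U (iInf_le_of_le U (iInf_le_of_le h1 ?_)))
  refine le_of_eq ?_
  rw [ENNReal.tsum_eq_zero]
  intro i
  have : TightIn (φ i) (U i) = ∅ := by
    rw [eq_empty_iff_forall_notMem]
    rintro z ⟨hz, hz2⟩
    exact hz2 (h2 i z hz)
  rw [this, Measure.restrict_empty, lintegral_zero_measure]

theorem slack_of_flat {F : Set E4} (h : FlatCover F) : SlackSurf F := by
  obtain ⟨φ, U, h1, h2⟩ := h
  refine ⟨φ, U, h1, fun i z hz => ?_⟩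
  have hP := (h1.1 i).1
  have h0 : ∫⁻ w in U i, curvAt (φ i) w = 0 :=
    (setLIntegral_congr_fun (g := fun _ => 0) hP.isOpen.measurableSet
      (fun w hw => h2 i w hw)).trans (by simp)
  rcases slack_or (patch_at hP hz) (hP.inside z hz) (hP.imm z hz) with hS | ⟨n, hn, hn2, hI⟩
  · exact hS
  · exact absurd hI (no_inner_of_zero hP h0 hz hn hn2)

theorem slack_of_meanLeOne {F : Set E4} (h : MeanLeOne F) : SlackSurf F := by
  obtain ⟨φ, U, h1, h2⟩ := h
  refine ⟨φ, U, h1, fun i z hz => ?_⟩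
  have hP := (h1.1 i).1
  exact slack_of_mean (patch_at hP hz) (hP.inside z hz) (hP.imm z hz) (h2 i z hz)

/-- A ribbon surface has the type of a slack surface. -/
theorem slack_of_ribbon {F' : Set E4} (h1 : PSurf F') (h3 : (0 : E4) ∉ F')
    (h4 : MorseSurf F' 0) : ∃ F'' : Set E4, PSurf F'' ∧ SameType F' F'' ∧ SlackSurf F'' := by
  obtain ⟨g, -, -, -, δ₀, hδ₀, hg⟩ :=
    conv_cover Pool.Agent.Y972.RB.kappa Pool.Agent.Y972.RB.sig Pool.Agent.Y941.RB.lim0
      Pool.Agent.Y941.RB.lim1 Pool.Agent.Y170.RB.TUBE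
      (Pool.Agent.Y555.RB.sqe_of Pool.Agent.Y151.RB.inn) Pool.Agent.Y339.RB.NCR.ncr
      Pool.Agent.Y339.RB.NCR.mxq Pool.Agent.Y281.RB.sad Pool.Agent.Y185.RB.sqd
      Pool.Agent.Y794.RB.gsurf (Pool.Agent.Y987.RB.par_of Pool.Agent.Y972.RB.type) F' h1 h3 h4
  obtain ⟨⟨Ψ, hR⟩, g2, g3, g4⟩ := hg (δ₀ / 2) ⟨by linarith, by linarith⟩
  refine ⟨_, g2, ⟨g3, squeeze (δ₀ / 2) g, Ψ, rfl, ?_⟩, slack_of_flat g4⟩
  intro x hx
  have hx0 : x ∈ {x : E4 | x ≠ 0} := fun h => h3 (h ▸ hx)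
  obtain ⟨r1, r2, r3⟩ := hR.map x hx0
  exact ⟨r3, (hR.map' _ r1).2.2, r2, hR.fix x hx0⟩

theorem surf_tfae (F : Set E4) :
    List.TFAE [
      ∃ F' : Set E4, PSurf F' ∧ SameType F F' ∧ (0 : E4) ∉ F' ∧ MorseSurf F' 0,
      ∃ F' : Set E4, PSurf F' ∧ SameType F F' ∧ SlackSurf F',
      ∃ F' : Set E4, PSurf F' ∧ SameType F F' ∧ surfExcess F' < ENNReal.ofReal (2 * Real.pi ^ 2),
      ∃ F' : Set E4, PSurf F' ∧ SameType F F' ∧ surfEnergy F' < ENNReal.ofReal (4 * Real.pi)] := by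
  have hpi := Real.pi_pos
  tfae_have 1 → 2 := by
    rintro ⟨F', h1, h2, h3, h4⟩
    obtain ⟨F'', g1, g2, g3⟩ := slack_of_ribbon h1 h3 h4
    exact ⟨F'', g1, h2.trans g2, g3⟩
  tfae_have 2 → 4 := by
    rintro ⟨F', h1, h2, h3⟩
    refine ⟨F', h1, h2, ?_⟩
    rw [energy_zero h3]
    exact ENNReal.ofReal_pos.2 (by positivity)
  tfae_have 4 → 3 := by
    rintro ⟨F', h1, h2, h3⟩
    refine ⟨F', h1, h2, ?_⟩
    have := excess_of_energy (F := F') (m := 0) (by simpa using h3)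
    simpa using this
  tfae_have 3 → 1 := by
    rintro ⟨F', h1, h2, h3⟩
    have h4 := (gapSurf F).out 1 0
    exact h4.1 ⟨F', h1, h2, (totalCurv_le F').trans_lt h3⟩
  tfae_finish

/-! ### Topological type -/

/-- `F` is a compact smooth surface, properly embedded in the unit ball, with boundary `K`,
homeomorphic to `S`. -/
def BCls (S : Type) [TopologicalSpace S] (K F : Set E4) : Prop :=
  PSurf F ∧ F ∩ sphere 0 1 = K ∧ Nonempty (F ≃ₜ S)

theorem SameType.homeo {F F' : Set E4} (h : SameType F F') : Nonempty (F ≃ₜ F') := by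
  obtain ⟨-, Φ, Ψ, rfl, h⟩ := h
  refine ⟨⟨⟨fun x => ⟨Φ x, x, x.2, rfl⟩, fun y => ⟨Ψ y, ?_⟩, ?_, ?_⟩, ?_, ?_⟩⟩
  · obtain ⟨_, x, hx, rfl⟩ := y
    rw [(h x hx).2.2.1]
    exact hx
  · rintro ⟨x, hx⟩
    exact Subtype.ext (h x hx).2.2.1
  · rintro ⟨_, x, hx, rfl⟩
    apply Subtype.ext
    show Φ (Ψ (Φ x)) = Φ x
    rw [(h x hx).2.2.1]
  · have : ContinuousOn Φ F := fun x hx => (h x hx).1.continuousAt.continuousWithinAt
    exact (continuousOn_iff_continuous_restrict.1 this).subtype_mk _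
  · have : ContinuousOn Ψ (Φ '' F) := by
      rintro _ ⟨x, hx, rfl⟩
      exact (h x hx).2.1.continuousAt.continuousWithinAt
    exact (continuousOn_iff_continuous_restrict.1 this).subtype_mk _

theorem BCls.of_same {S : Type} [TopologicalSpace S] {K F F' : Set E4} (h : BCls S K F)
    (hP : PSurf F') (hs : SameType F F') : BCls S K F' := by
  obtain ⟨e⟩ := SameType.homeo hs
  obtain ⟨-, h2, ⟨f⟩⟩ := h
  exact ⟨hP, hs.1.trans h2, ⟨e.symm.trans f⟩⟩

theorem SameType.rfl' {F : Set E4} : SameType F F :=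
  ⟨rfl, id, id, by simp, fun x _ => ⟨contDiffAt_id, contDiffAt_id, rfl, fun _ => rfl⟩⟩

theorem cls_tfae (S : Type) [TopologicalSpace S] (K : Set E4) :
    List.TFAE [
      ∃ F : Set E4, BCls S K F ∧ (0 : E4) ∉ F ∧ MorseSurf F 0,
      ∃ F : Set E4, BCls S K F ∧ SlackSurf F,
      ∃ F : Set E4, BCls S K F ∧ surfExcess F < ENNReal.ofReal (2 * Real.pi ^ 2),
      ∃ F : Set E4, BCls S K F ∧ surfEnergy F < ENNReal.ofReal (4 * Real.pi)] := by
  have key : ∀ (P Q : Set E4 → Prop), (∀ F : Set E4,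
      (∃ F' : Set E4, PSurf F' ∧ SameType F F' ∧ P F') ↔
        ∃ F' : Set E4, PSurf F' ∧ SameType F F' ∧ Q F') →
      ((∃ F : Set E4, BCls S K F ∧ P F) ↔ ∃ F : Set E4, BCls S K F ∧ Q F) := by
    have half : ∀ (P Q : Set E4 → Prop), (∀ F : Set E4,
        (∃ F' : Set E4, PSurf F' ∧ SameType F F' ∧ P F') ↔
          ∃ F' : Set E4, PSurf F' ∧ SameType F F' ∧ Q F') →
        ((∃ F : Set E4, BCls S K F ∧ P F) → ∃ F : Set E4, BCls S K F ∧ Q F) := by
      rintro P Q h ⟨F, hF, hP⟩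
      obtain ⟨F', h1, h2, h3⟩ := (h F).1 ⟨F, hF.1, SameType.rfl', hP⟩
      exact ⟨F', BCls.of_same hF h1 h2, h3⟩
    intro P Q h
    exact ⟨half P Q h, half Q P fun F => (h F).symm⟩
  have e12 := key (fun F => (0 : E4) ∉ F ∧ MorseSurf F 0) SlackSurf
    (fun F => (surf_tfae F).out 0 1)
  have e13 := key (fun F => (0 : E4) ∉ F ∧ MorseSurf F 0)
    (fun F => surfExcess F < ENNReal.ofReal (2 * Real.pi ^ 2)) (fun F => (surf_tfae F).out 0 2)
  have e14 := key (fun F => (0 : E4) ∉ F ∧ MorseSurf F 0)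
    (fun F => surfEnergy F < ENNReal.ofReal (4 * Real.pi)) (fun F => (surf_tfae F).out 0 3)
  tfae_have 1 ↔ 2 := e12
  tfae_have 1 ↔ 3 := e13
  tfae_have 1 ↔ 4 := e14
  tfae_finish

end Pool.Agent.Run7.h822.HM
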