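import Mathlib
import Pool.Agent.Run7.h822.HM.Mini
import Pool.Agent.Y503.RB.GapAll

/-!
Slice discs of total horospherical curvature zero are slack; characterisation of ribbon discs.
-/

set_option autoImplicit false

namespace Pool.Agent.Run7.h822.HM

open scoped ContDiff RealInnerProductSpace ENNReal NNReal Topology
open MeasureTheory Set Metric Filter
open Pool.Agent.Y503.RB Pool.Agent.N503.WI

theorem no_inner_of_zero {φ : ℂ → E4} {U : Set ℂ} (hP : Patch φ U)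
    (h0 : ∫⁻ z in U, curvAt φ z = 0) {z₀ : ℂ} (hz : z₀ ∈ U) {n : E4} (hn : ‖n‖ = 1)
    (hnn : ∀ v : ℂ, ⟪n, d1 φ v z₀⟫ = 0) : ¬ Inner φ n z₀ := by
  intro hI
  obtain ⟨U', hU'U, hzU', hU'o, N₁, N₂, hF⟩ := Pool.Agent.Y297.RB.lf φ U hP z₀ hz
  have hP' : Patch φ U' := Pool.Agent.Y232.RB.Ref.patch_mono hP hU'U hU'o
  obtain ⟨θ₀, hθ₀, hnθ⟩ := Pool.Agent.Y977.RB.frame φ N₁ N₂ U' hP' hF z₀ hzU' n hn hnn
  obtain ⟨c1, c2, c3⟩ := Pool.Agent.Y349.RB.cont φ N₁ N₂ U' hP' hF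
  have hO := isOpen_inner Pool.Agent.Y349.RB.cont hP' hF
  have hmem : (θ₀, z₀) ∈ {q : ℝ × ℂ | q.2 ∈ U' ∧ Inner φ (nor N₁ N₂ q.1 q.2) q.2} := by
    refine ⟨hzU', ?_⟩
    show Inner φ (nor N₁ N₂ θ₀ z₀) z₀
    rw [← hnθ]
    exact hI
  have hg0 : 0 < dens0 φ (nor N₁ N₂ θ₀ z₀) z₀ := by
    rw [← hnθ]
    have hr := rad_pos (hP.inside z₀ hz) hn
    have hr1 : 0 < 1 - rad (φ z₀) n := by linarith [rad_lt (hP.inside z₀ hz) hn]
    have hd := Pool.Agent.Y503.RB.fffDet_pos (hP.imm z₀ hz)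
    have hs : 0 < √(fffDet φ z₀) := Real.sqrt_pos.2 hd
    have he : 0 < |excDet φ n z₀| := abs_pos.2 hI.2.ne'
    unfold dens0
    positivity
  have hU'prod : (univ : Set ℝ) ×ˢ U' ∈ 𝓝 (θ₀, z₀) :=
    (isOpen_univ.prod hU'o).mem_nhds ⟨mem_univ _, hzU'⟩
  have hcont : ContinuousAt (fun q : ℝ × ℂ => dens0 φ (nor N₁ N₂ q.1 q.2) q.2) (θ₀, z₀) :=
    c3.continuousAt hU'prod
  have hev : ∀ᶠ q in 𝓝 (θ₀, z₀), dens0 φ (nor N₁ N₂ θ₀ z₀) z₀ / 2 <
      dens0 φ (nor N₁ N₂ q.1 q.2) q.2 :=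
    hcont.eventually (lt_mem_nhds (by linarith : dens0 φ (nor N₁ N₂ θ₀ z₀) z₀ / 2 <
      dens0 φ (nor N₁ N₂ (θ₀, z₀).1 (θ₀, z₀).2) (θ₀, z₀).2))
  obtain ⟨ε, hε, hball⟩ := Metric.eventually_nhds_iff_ball.1 (hev.and (hO.mem_nhds hmem))
  set c := dens0 φ (nor N₁ N₂ θ₀ z₀) z₀ / 2 with hc
  have hc0 : 0 < c := by linarith
  set ε' := min ε (2 * Real.pi - θ₀) with hε'
  have hε'0 : 0 < ε' := lt_min hε (by linarith [hθ₀.2])
  have hlow : ∀ z ∈ ball z₀ ε, ENNReal.ofReal c * ENNReal.ofReal ε' ≤ curvAt φ z := by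
    intro z hz'
    have hzU : z ∈ U' := by
      have := hball (θ₀, z) (by
        rw [mem_ball, Prod.dist_eq, dist_self]
        exact max_lt hε hz')
      exact this.2.1
    rw [← Pool.Agent.Y429.RB.IND φ N₁ N₂ U' hP' hF z hzU]
    have hsub : Ioo θ₀ (θ₀ + ε') ⊆ Ico 0 (2 * Real.pi) := by
      intro θ hθ
      have h1 := hθ.2
      have h2 : ε' ≤ 2 * Real.pi - θ₀ := min_le_right _ _
      exact ⟨hθ₀.1.trans hθ.1.le, by linarith⟩
    calc ENNReal.ofReal c * ENNReal.ofReal ε' = ∫⁻ _ in Ioo θ₀ (θ₀ + ε'), ENNReal.ofReal c := by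
          rw [setLIntegral_const, Real.volume_Ioo]
          congr 2
          ring
      _ ≤ ∫⁻ θ in Ioo θ₀ (θ₀ + ε'), ENNReal.ofReal (dens φ (nor N₁ N₂ θ z) z) := by
          refine setLIntegral_mono' measurableSet_Ioo fun θ hθ => ENNReal.ofReal_le_ofReal ?_
          have hq : (θ, z) ∈ ball (θ₀, z₀) ε := by
            rw [mem_ball, Prod.dist_eq]
            refine max_lt ?_ hz'
            rw [Real.dist_eq, abs_of_pos (by linarith [hθ.1])]
            have h1 := hθ.2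
            have h2 : ε' ≤ ε := min_le_left _ _
            linarith
          obtain ⟨h1, h2⟩ := hball (θ, z) hq
          have h3 : dens φ (nor N₁ N₂ θ z) z = dens0 φ (nor N₁ N₂ θ z) z := by
            unfold dens
            rw [if_pos h2.2]
          rw [h3]
          exact h1.le
      _ ≤ _ := lintegral_mono_set hsub
  have hballU : ball z₀ ε ⊆ U := by
    intro z hz'
    have := hball (θ₀, z) (by
      rw [mem_ball, Prod.dist_eq, dist_self]
      exact max_lt hε hz')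
    exact hU'U this.2.1
  have h5 : ENNReal.ofReal c * ENNReal.ofReal ε' * volume (ball z₀ ε) ≤
      ∫⁻ z in U, curvAt φ z := by
    rw [← setLIntegral_const]
    exact (setLIntegral_mono' measurableSet_ball hlow).trans (lintegral_mono_set hballU)
  rw [h0] at h5
  have h6 : 0 < ENNReal.ofReal c * ENNReal.ofReal ε' * volume (ball z₀ ε) := by
    refine ENNReal.mul_pos (ENNReal.mul_pos ?_ ?_).ne' ?_
    · exact (ENNReal.ofReal_pos.2 hc0).ne'
    · exact (ENNReal.ofReal_pos.2 hε'0).ne'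
    · exact (measure_ball_pos _ _ hε).ne'
  exact absurd h5 (not_le.2 h6)

/-- A slice disc has total horospherical curvature zero if and only if all its points are slack. -/
theorem zero_iff {φ : ℂ → E4} (h : SliceDisc φ) :
    ∫⁻ z in ball (0 : ℂ) 1, curvAt φ z = 0 ↔ ∀ z ∈ ball (0 : ℂ) 1, Slack φ z := by
  constructor
  · intro h0 z hz
    rcases slack_or (SliceDisc.smoothAt h hz) (h.inside z hz)
      (h.imm z (ball_subset_closedBall hz)) with hS | ⟨n, hn, hn2, hI⟩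
    · exact hS
    · exact absurd hI (no_inner_of_zero h.patch h0 hz hn hn2)
  · intro hS
    refine (setLIntegral_congr_fun (g := fun _ => 0) isOpen_ball.measurableSet ?_).trans (by simp)
    intro z hz
    exact curvAt_eq_zero (SliceDisc.smoothAt h hz) (h.inside z hz) (hS z hz)

/-- Characterisation of the boundaries of ribbon discs. -/
theorem ribbon_tfae (γ : ℂ → E4) :
    List.TFAE [
      ∃ φ : ℂ → E4, SliceDisc φ ∧ (∀ z ∈ sphere (0 : ℂ) 1, φ z = γ z) ∧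
        (∀ z ∈ closedBall (0 : ℂ) 1, φ z ≠ 0) ∧ MorseDisc φ 0,
      ∃ φ : ℂ → E4, SliceDisc φ ∧ (∀ z ∈ sphere (0 : ℂ) 1, φ z = γ z) ∧
        ∀ z ∈ ball (0 : ℂ) 1, Slack φ z,
      ∃ φ : ℂ → E4, SliceDisc φ ∧ (∀ z ∈ sphere (0 : ℂ) 1, φ z = γ z) ∧
        ∫⁻ z in Tight φ, excessAt φ z < ENNReal.ofReal (2 * Real.pi ^ 2),
      ∃ φ : ℂ → E4, SliceDisc φ ∧ (∀ z ∈ sphere (0 : ℂ) 1, φ z = γ z) ∧
        ∫⁻ z in Tight φ, ENNReal.ofReal (energyH φ z) < ENNReal.ofReal (4 * Real.pi)] := by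
  have hpi := Real.pi_pos
  tfae_have 1 → 2 := by
    intro h
    obtain ⟨φ, h1, h2, h3⟩ := ((gapDisc γ).out 0 2).1 h
    exact ⟨φ, h1, h2, (zero_iff h1).1 h3⟩
  tfae_have 2 → 4 := by
    rintro ⟨φ, h1, h2, h3⟩
    refine ⟨φ, h1, h2, ?_⟩
    have : Tight φ = ∅ := by
      rw [eq_empty_iff_forall_notMem]
      rintro z ⟨hz, hz2⟩
      exact hz2 (h3 z hz)
    rw [this, Measure.restrict_empty, lintegral_zero_measure]
    exact ENNReal.ofReal_pos.2 (by positivity)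
  tfae_have 4 → 3 := by
    rintro ⟨φ, h1, h2, h3⟩
    refine ⟨φ, h1, h2, lt_of_le_of_lt (excess_le_energy h1) ?_⟩
    have h0 : ENNReal.ofReal (Real.pi / 2) ≠ 0 := by
      rw [Ne, ENNReal.ofReal_eq_zero, not_le]; positivity
    calc ENNReal.ofReal (Real.pi / 2) * ∫⁻ z in Tight φ, ENNReal.ofReal (energyH φ z)
        < ENNReal.ofReal (Real.pi / 2) * ENNReal.ofReal (4 * Real.pi) :=
          (ENNReal.mul_lt_mul_iff_right h0 ENNReal.ofReal_ne_top).2 h3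
      _ = _ := by
          rw [← ENNReal.ofReal_mul (by positivity)]
          congr 1
          ring
  tfae_have 3 → 1 := by
    rintro ⟨φ, h1, h2, h3⟩
    have h4 := (gapDisc γ).out 1 0
    exact h4.1 ⟨φ, h1, h2, lt_of_le_of_lt (curv_le_tight h1) h3⟩
  tfae_finish

end Pool.Agent.Run7.h822.HM
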